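import Mathlib
import Pool.Agent.Helper47.Mimic.Main

/-!
Band-limited mimicry of the sine process on the lattice `aℤ` is impossible at every bandwidth
`B > max(0, (1-a)/a)`. In particular no pair in the undecided region `U` admits mimicry.
-/

set_option autoImplicit false

universe v

namespace Pool.Agent.Results.MP_0e0b55_pr.NoMimicryAboveThreshold

open Pool.Agent.Helper47.Mimic

/-- If `a > 0`, `B > 0` and `B > (1 - a)/a`, then no point process with uniform local moments on
`aℤ` mimics the sine process at bandwidth `B`. The hypotheses hold for every pair `(a, B)` in the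
set `U` of the problem. -/
theorem result (a B : ℝ) (ha : 0 < a) (hB : 0 < B) (h : (1 - a) / a < B) :
    ¬ AdmitsMimicry.{v} a B := by
  apply not_admits a B ha hB
  rw [div_lt_iff₀ ha] at h
  linarith

end Pool.Agent.Results.MP_0e0b55_pr.NoMimicryAboveThreshold
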